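import Pool.Agent.H5.OR.Targets

/-!
# Isomorphism problem for one-relator groups (MP_e1fd52_al): row TA, half trees
-/

set_option autoImplicit false

open scoped Classical

namespace Pool.Agent.H11.OR

open ORg SimpleGraph

section Tree

variable {V : Type} {T : SimpleGraph V}

theorem dist_or (hT : T.IsTree) {a b : V} (h : T.Adj a b) (v : V) :
    T.dist v a = T.dist v b + 1 ∨ T.dist v b = T.dist v a + 1 :=
  hT.dist_eq_dist_add_one_of_adj v h

/-- the only edge between the two half trees -/
theorem crossing (hT : T.IsTree) {a b u v : V} (hab : T.Adj a b) (huv : T.Adj u v)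
    (hu : T.dist u a < T.dist u b) (hv : T.dist v b < T.dist v a) : u = a ∧ v = b := by
  have h1 : T.dist u b = T.dist u a + 1 := by
    rcases dist_or hT hab u with h | h <;> omega
  have h2 : T.dist v a = T.dist v b + 1 := by
    rcases dist_or hT hab v with h | h <;> omega
  have huv1 : T.dist u v = 1 := dist_eq_one_iff_adj.mpr huv
  have hvu1 : T.dist v u = 1 := dist_eq_one_iff_adj.mpr huv.symm
  have h3 : T.dist v a ≤ T.dist v u + T.dist u a := hT.connected.dist_triangle
  have h4 : T.dist u b ≤ T.dist u v + T.dist v b := hT.connected.dist_triangle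
  have h5 : T.dist u a = T.dist v b := by omega
  obtain ⟨p, hp, hpl⟩ := hT.connected.exists_path_of_dist u a
  obtain ⟨q, hq, hql⟩ := hT.connected.exists_path_of_dist v b
  have hP : (Walk.cons huv.symm p).length = T.dist v a := by
    rw [Walk.length_cons, hpl]
    omega
  have hQ : (q.concat hab.symm).length = T.dist v a := by
    rw [Walk.length_concat, hql]
    omega
  have hP' := Walk.isPath_of_length_eq_dist _ hP
  have hQ' := Walk.isPath_of_length_eq_dist _ hQ
  have heq : (⟨_, hP'⟩ : T.Path v a) = ⟨_, hQ'⟩ := (hT.isAcyclic.subsingleton_path v a).elim _ _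
  have heq' : Walk.cons huv.symm p = q.concat hab.symm := congrArg Subtype.val heq
  have hb : b ∈ (Walk.cons huv.symm p).support := by
    rw [heq', Walk.support_concat]
    simp
  rw [Walk.support_cons, List.mem_cons] at hb
  rcases hb with hb | hb
  · subst hb
    rw [dist_self] at h5
    exact ⟨hT.connected.dist_eq_zero_iff.1 h5, rfl⟩
  · exfalso
    have h6 : T.dist u b ≤ (p.takeUntil b hb).length := dist_le _
    have h7 := p.length_takeUntil_le_length hb
    omega

/-- the walks between the two half trees -/
theorem walk_ge (hT : T.IsTree) {a b : V} (hab : T.Adj a b) {u v : V} (p : T.Walk u v)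
    (hu : T.dist u a < T.dist u b) (hv : T.dist v b < T.dist v a) :
    T.dist u a + 1 + T.dist b v ≤ p.length ∧ a ∈ p.support ∧ b ∈ p.support := by
  induction p with
  | nil => omega
  | @cons u u' v h p ih =>
    rw [Walk.length_cons, Walk.support_cons]
    rcases dist_or hT hab u' with h1 | h1
    · obtain ⟨h2, h3⟩ := crossing hT hab h hu (by omega)
      subst h2
      subst h3
      have h4 := dist_le p
      rw [dist_self]
      refine ⟨by omega, List.mem_cons_self, List.mem_cons_of_mem _ p.start_mem_support⟩
    · obtain ⟨h2, h3, h4⟩ := ih (by omega) hv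
      have h5 : T.dist u a ≤ T.dist u u' + T.dist u' a := hT.connected.dist_triangle
      have h6 : T.dist u u' = 1 := dist_eq_one_iff_adj.mpr h
      exact ⟨by omega, List.mem_cons_of_mem _ h3, List.mem_cons_of_mem _ h4⟩

end Tree

theorem pf_TA : T_TA := by
  intro G _ S
  have hT := S.tree
  have hle : ∀ (g : G) (u v : S.V), S.T.dist (g • u) (g • v) ≤ S.T.dist u v := by
    intro g u v
    obtain ⟨p, hp⟩ := hT.connected.exists_walk_length_eq_dist u v
    let f : S.T →g S.T := ⟨fun x => g • x, fun {x y} h => S.adj g x y h⟩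
    have h1 := dist_le (p.map f)
    rw [Walk.length_map, hp] at h1
    exact h1
  have hd : ∀ (g : G) (u v : S.V), S.T.dist (g • u) (g • v) = S.T.dist u v := by
    intro g u v
    refine le_antisymm (hle g u v) ?_
    have h1 := hle g⁻¹ (g • u) (g • v)
    rw [inv_smul_smul, inv_smul_smul] at h1
    exact h1
  refine ⟨hd, ?_, ?_, ?_, ?_, ?_, ?_, ?_, ?_, ?_⟩
  · intro g u v
    refine ⟨fun h => ?_, fun h => S.adj g u v h⟩
    have h1 := S.adj g⁻¹ _ _ h
    rw [inv_smul_smul, inv_smul_smul] at h1
    exact h1
  · intro g a b v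
    change S.T.dist (g • v) (g • a) < S.T.dist (g • v) (g • b) ↔ S.T.dist v a < S.T.dist v b
    rw [hd, hd]
  · intro a b hab v
    change (S.T.dist v a < S.T.dist v b ∨ S.T.dist v b < S.T.dist v a) ∧
      ¬ (S.T.dist v a < S.T.dist v b ∧ S.T.dist v b < S.T.dist v a)
    rcases dist_or hT hab v with h | h <;> omega
  · intro a b hab
    change S.T.dist a a < S.T.dist a b ∧ ¬ (S.T.dist b a < S.T.dist b b)
    have h1 : S.T.dist a b = 1 := dist_eq_one_iff_adj.mpr hab
    rw [dist_self, dist_self]
    omega
  · intro a b hab v hv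
    change S.T.dist v a < S.T.dist v b at hv
    rcases dist_or hT hab v with h | h <;> omega
  · intro a b hab u v huv hu hv
    exact crossing hT hab huv hu hv
  · intro a b hab u v hu hv
    change S.T.dist u a < S.T.dist u b at hu
    change S.T.dist v b < S.T.dist v a at hv
    obtain ⟨p, hp⟩ := hT.connected.exists_walk_length_eq_dist u v
    have h1 := (walk_ge hT hab p hu hv).1
    have h2 : S.T.dist u v ≤ S.T.dist u a + S.T.dist a v := hT.connected.dist_triangle
    have h3 : S.T.dist a v ≤ S.T.dist a b + S.T.dist b v := hT.connected.dist_triangle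
    have h4 : S.T.dist a b = 1 := dist_eq_one_iff_adj.mpr hab
    omega
  · intro u v huv
    obtain ⟨p, hp⟩ := hT.connected.exists_walk_length_eq_dist u v
    cases p with
    | nil => exact absurd rfl huv
    | @cons _ a _ h q =>
      refine ⟨a, h, ?_⟩
      change S.T.dist v a < S.T.dist v u
      have h1 := dist_le q
      rw [Walk.length_cons] at hp
      rw [dist_comm (u := v) (v := a), dist_comm (u := v) (v := u)]
      omega
  · intro x y
    obtain ⟨p, hp⟩ := hT.connected.exists_walk_length_eq_dist x y
    refine Set.Finite.subset ((p.support.toFinset ×ˢ p.support.toFinset).finite_toSet) ?_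
    rintro ⟨a, b⟩ ⟨hab, hx, hy⟩
    have h1 := (walk_ge hT hab p hx hy).2
    rw [Finset.mem_coe, Finset.mem_product, List.mem_toFinset, List.mem_toFinset]
    exact h1

end Pool.Agent.H11.OR
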